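import Pool.Agent.W496.BM.Latt

/-!
# The Banach-Mazur diameter is infinite for Banach lattices, their complemented subspaces, and
spaces with local unconditional structure
-/

set_option autoImplicit false

namespace Pool.Agent.Results.MP_76005e_an.LocalUnconditional

open scoped ENNReal NNReal

universe u v

/-- The Banach-Mazur distance `d(Y, Z) = inf ‖T‖ ‖T⁻¹‖`, over all linear isomorphisms `T` of `Y`
onto `Z`, as an element of `[0, ∞]`. -/
noncomputable def bmDist (𝕜 : Type) [RCLike 𝕜] (Y Z : Type u) [NormedAddCommGroup Y]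
    [NormedSpace 𝕜 Y] [NormedAddCommGroup Z] [NormedSpace 𝕜 Z] : ℝ≥0∞ :=
  ⨅ T : Y ≃L[𝕜] Z, ENNReal.ofReal (‖(T : Y →L[𝕜] Z)‖ * ‖(T.symm : Z →L[𝕜] Y)‖)

/-- `D(X) = sup d(Y, Z)`, over all Banach spaces `Y` and `Z` isomorphic to `X`, as an element of
`[0, ∞]`. -/
noncomputable def bmDiam (𝕜 : Type) [RCLike 𝕜] (X : Type u) [NormedAddCommGroup X]
    [NormedSpace 𝕜 X] : ℝ≥0∞ :=
  ⨆ (Y : Type u) (_ : NormedAddCommGroup Y) (_ : NormedSpace 𝕜 Y) (_ : CompleteSpace Y)
    (Z : Type u) (_ : NormedAddCommGroup Z) (_ : NormedSpace 𝕜 Z) (_ : CompleteSpace Z)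
    (_ : Nonempty (X ≃L[𝕜] Y)) (_ : Nonempty (X ≃L[𝕜] Z)), bmDist 𝕜 Y Z

/-- `v` is a basis of the space `U` whose norm does not change under changes of signs of the
coordinates. -/
def SignUnconditional (𝕜 : Type) [RCLike 𝕜] {U : Type} [NormedAddCommGroup U] [NormedSpace 𝕜 U]
    {n : ℕ} (v : Module.Basis (Fin n) 𝕜 U) : Prop :=
  ∀ (c : Fin n → 𝕜) (s : Fin n → ℝ), (∀ k, s k = 1 ∨ s k = -1) →
    ‖∑ k, (((s k : ℝ) : 𝕜) * c k) • v k‖ = ‖∑ k, c k • v k‖

/-- `X` has local unconditional structure in the sense of Gordon and Lewis: for some constant `C`,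
the inclusion of each finite-dimensional subspace `E` of `X` into `X` factors through a
finite-dimensional space `U` with a (sign-)unconditional basis, `E → U → X`, the product of the norms
of the factors being at most `C`. -/
def HasLUST (𝕜 : Type) [RCLike 𝕜] (X : Type u) [NormedAddCommGroup X] [NormedSpace 𝕜 X] : Prop :=
  ∃ C : ℝ, ∀ E : Submodule 𝕜 X, FiniteDimensional 𝕜 E →
    ∃ (n : ℕ) (U : Type) (_ : NormedAddCommGroup U) (_ : NormedSpace 𝕜 U)
      (v : Module.Basis (Fin n) 𝕜 U) (α : E →L[𝕜] U) (β : U →L[𝕜] X),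
      SignUnconditional 𝕜 v ∧ (∀ e : E, β (α e) = e) ∧ ‖α‖ * ‖β‖ ≤ C

theorem diam_of_far {𝕜 : Type} [RCLike 𝕜] {X : Type u} [NormedAddCommGroup X] [NormedSpace 𝕜 X]
    (h : Pool.Agent.Helper358.BP.Far 𝕜 X) : bmDiam 𝕜 X = ∞ := by
  apply ENNReal.eq_top_of_forall_nnreal_le
  intro M
  obtain ⟨Y, Z, i1, i2, i3, i4, i5, i6, hY, hZ, h⟩ := h M
  have h1 : (M : ℝ≥0∞) ≤ bmDist 𝕜 Y Z := by
    apply le_iInf
    intro T
    rw [← ENNReal.ofReal_coe_nnreal]
    exact ENNReal.ofReal_le_ofReal (h T)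
  refine h1.trans ?_
  unfold bmDiam
  exact le_iSup_of_le Y <| le_iSup_of_le i1 <| le_iSup_of_le i2 <| le_iSup_of_le i3 <|
    le_iSup_of_le Z <| le_iSup_of_le i4 <| le_iSup_of_le i5 <| le_iSup_of_le i6 <|
    le_iSup_of_le hY <| le_iSup_of_le hZ le_rfl

/-- **Theorem.** Let `X` be a Banach space of infinite dimension, for instance a nonseparable one.
Then `D(X) = ∞` in each of the following cases.
1. `X` is a real Banach lattice.
2. `X` is real and isomorphic to a complemented subspace of a (possibly incomplete) normed lattice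
   `L`: there are bounded operators `j : X → L` and `P : L → X` with `P ∘ j = id`.
3. `X` is real or complex and has local unconditional structure. -/
theorem result :
    (∀ (X : Type u) [NormedAddCommGroup X] [NormedSpace ℝ X] [CompleteSpace X] [Lattice X]
      [HasSolidNorm X] [IsOrderedAddMonoid X] [IsOrderedModule ℝ X],
      ¬ FiniteDimensional ℝ X → bmDiam ℝ X = ∞) ∧
    (∀ (X : Type u) [NormedAddCommGroup X] [NormedSpace ℝ X] [CompleteSpace X]
      (L : Type v) [NormedAddCommGroup L] [NormedSpace ℝ L] [Lattice L] [HasSolidNorm L]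
      [IsOrderedAddMonoid L] [IsOrderedModule ℝ L] (j : X →L[ℝ] L) (P : L →L[ℝ] X),
      (∀ x, P (j x) = x) → ¬ FiniteDimensional ℝ X → bmDiam ℝ X = ∞) ∧
    (∀ (𝕜 : Type) [RCLike 𝕜] (X : Type u) [NormedAddCommGroup X] [NormedSpace 𝕜 X]
      [CompleteSpace X], ¬ FiniteDimensional 𝕜 X → HasLUST 𝕜 X → bmDiam 𝕜 X = ∞) := by
  refine ⟨?_, ?_, ?_⟩
  · intro X _ _ _ _ _ _ _ hX
    exact diam_of_far (Pool.Agent.W496.BM.far_of_lattice hX (ContinuousLinearMap.id ℝ X)
      (ContinuousLinearMap.id ℝ X) (fun x => rfl))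
  · intro X _ _ _ L _ _ _ _ _ _ j P hPj hX
    exact diam_of_far (Pool.Agent.W496.BM.far_of_lattice hX j P hPj)
  · intro 𝕜 _ X _ _ _ hX h
    apply diam_of_far
    apply Pool.Agent.W496.BM.far_of_lust hX
    obtain ⟨C, hC⟩ := h
    exact ⟨C, hC⟩

end Pool.Agent.Results.MP_76005e_an.LocalUnconditional
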